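import Pool.Agent.Y173.QM.Defs
import Pool.Agent.Y174.BDefs

/-! The relative condition of Reid-Tai type for pairs, with an orbifold divisor on the base. -/

set_option autoImplicit false
set_option linter.overlappingInstances false
set_option linter.unusedSectionVars false

universe u v

open FF IntermediateField Pool.Agent.W619.PQ Pool.Agent.Y173.QA Pool.Agent.Y173.QM
  Pool.Agent.Y174

namespace Pool.Agent.Y173.QO

section

variable {k : Type v} {L : Type u} [Field k] [Field L] [Algebra k L]

/-- The contribution `x` of the base with the orbifold divisor of multiplicities `δY`, at the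
divisor `w`: it is `0` if `w` dominates the base, and `c * (1 - δY u)` if `w` lies over the
divisor `u` of the base with multiplicity `c`. -/
def BaseTerm (M : IntermediateField k L) (δY : Place k M → ℝ) (w : Place k L) (x : ℝ) : Prop :=
  (x = 0 ∧ ∀ f : M, w.ord (f : L) = 0) ∨
    ∃ (u : Place k M) (c : ℕ), LiesOn w u c ∧ x = c * (1 - δY u)

/-- The relative condition of Reid-Tai type on the space `V` of `1`-forms: if the divisor `w` lies
over the divisor `v` of the quotient, with ramification index `e`, an element `g` of `G` of order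
`e` fixes `w` pointwise and acts on the elements `θ 1, ..., θ f` of `V`, which are independent
relative to `M`, by `ζ ^ a 1, ..., ζ ^ a f` with `0 ≤ a i < e`, where `ζ` is a primitive `e`-th root
of unity, then `x + ∑ a i ≥ e (1 - δ v)`, where `x` is the contribution of the base. This is
required for `g = 1` too (with `e = 1`), if `w` does not dominate the base. -/
def ReidTaiOrb (m f : ℕ) (G : Subgroup (L ≃ₐ[k] L)) (M : IntermediateField k L)
    (V : Submodule k (Derivation k L L →ₗ[L] L)) (δ : Place k (fixedField G) → ℝ)
    (δY : Place k M → ℝ) : Prop :=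
  ∀ g ∈ G, ∀ (w : Place k L) (v : Place k (fixedField G)), IsDivisorial w (m + f) →
    LiesOn w v (orderOf g) →
    (∀ z, w.Reg z → g z - z = 0 ∨ 1 ≤ w.ord (g z - z)) →
    (g = 1 → ∃ z : M, w.ord (z : L) ≠ 0) →
    ∀ ζ : k, IsPrimitiveRoot ζ (orderOf g) →
    ∀ (θ : Fin f → Derivation k L L →ₗ[L] L) (a : Fin f → ℕ),
      (∀ i, θ i ∈ V ∧ a i < orderOf g ∧ IsImage g (θ i) (ζ ^ a i • θ i)) →
      IndepOver (m := m) M θ → ∀ x : ℝ, BaseTerm M δY w x →
        (orderOf g : ℝ) * (1 - δ v) ≤ x + ∑ i, (a i : ℝ)

end

end Pool.Agent.Y173.QO
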